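import Pool.Agent.H156.Upcycle

/-!
# Universal partial cycles with arbitrarily large diamondicity

For every `d ≥ 2` there is a non-trivial upcycle for `{0, 1, 2, 3}^(4 d)` with diamondicity `d`.
-/

set_option autoImplicit false

namespace Pool.Agent.Results.MP_f32aed_co.Diamondicity

/-- A cyclic partial word of length `N` over the alphabet `{0, …, a - 1}`: the indices are taken
modulo `N`, and `none` is the wildcard. -/
abbrev CyclicPartialWord (a N : ℕ) := ZMod N → Option (Fin a)

/-- The window `u_i u_(i+1) … u_(i+n-1)` of `u` at position `i` covers the word `w`. -/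
def Covers {a N n : ℕ} (u : CyclicPartialWord a N) (i : ZMod N) (w : Fin n → Fin a) : Prop :=
  ∀ j : Fin n, u (i + (j : ℕ)) = none ∨ u (i + (j : ℕ)) = some (w j)

/-- `u` is an upcycle for `{0, …, a - 1}^n`: every word of length `n` is covered by exactly one of
the `N` windows. -/
def IsUpcycle {a N : ℕ} (n : ℕ) (u : CyclicPartialWord a N) : Prop :=
  0 < N ∧ ∀ w : Fin n → Fin a, ∃! i : ZMod N, Covers u i w

/-- `u` contains at least one wildcard and at least one letter. -/
def NonTrivial {a N : ℕ} (u : CyclicPartialWord a N) : Prop :=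
  (∃ i, u i = none) ∧ ∃ i, u i ≠ none

/-- Every window of length `n` contains exactly `d` wildcards. -/
def HasDiamondicity {a N : ℕ} (n : ℕ) (u : CyclicPartialWord a N) (d : ℕ) : Prop :=
  ∀ i : ZMod N, (Finset.univ.filter (fun j : Fin n => u (i + (j : ℕ)) = none)).card = d

theorem card_aux (d q : ℕ) :
    (Finset.univ.filter (fun j : Fin (4 * d) => (q + (j : ℕ)) % 4 = 0)).card = d := by
  have h : ∀ d : ℕ, ((Finset.range (4 * d)).filter (fun j => (q + j) % 4 = 0)).card = d := by
    intro d
    induction d with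
    | zero => simp
    | succ d ih =>
      rw [show 4 * (d + 1) = 4 * d + 1 + 1 + 1 + 1 by ring, Finset.range_add_one,
        Finset.range_add_one, Finset.range_add_one, Finset.range_add_one]
      simp only [Finset.filter_insert]
      rcases (show q % 4 = 0 ∨ q % 4 = 1 ∨ q % 4 = 2 ∨ q % 4 = 3 by omega) with h | h | h | h
      · rw [if_neg (by omega), if_neg (by omega), if_neg (by omega), if_pos (by omega),
          Finset.card_insert_of_notMem (by simp), ih]
      · rw [if_pos (by omega), if_neg (by omega), if_neg (by omega), if_neg (by omega),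
          Finset.card_insert_of_notMem (by simp), ih]
      · rw [if_neg (by omega), if_pos (by omega), if_neg (by omega), if_neg (by omega),
          Finset.card_insert_of_notMem (by simp), ih]
      · rw [if_neg (by omega), if_neg (by omega), if_pos (by omega), if_neg (by omega),
          Finset.card_insert_of_notMem (by simp), ih]
  refine Eq.trans (Finset.card_bij (fun j _ => (j : ℕ)) ?_ ?_ ?_) (h d)
  · intro j hj
    rw [Finset.mem_filter] at hj ⊢
    exact ⟨Finset.mem_range.mpr j.isLt, hj.2⟩
  · intro j _ j' _ h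
    exact Fin.ext h
  · intro j hj
    rw [Finset.mem_filter, Finset.mem_range] at hj
    exact ⟨⟨j, hj.1⟩, by rw [Finset.mem_filter]; exact ⟨Finset.mem_univ _, hj.2⟩, rfl⟩

/-- The periodic sequence `U` as a cyclic partial word. -/
def cyc (N : ℕ) (U : ℕ → Option (Fin 4)) : CyclicPartialWord 4 N := fun i => U i.val

theorem cyc_cast {N : ℕ} {U : ℕ → Option (Fin 4)} (hU : ∀ i, U (i + N) = U i) (q : ℕ) :
    cyc N U (q : ZMod N) = U q := by
  have h : ∀ k q, U (q + N * k) = U q := by
    intro k
    induction k with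
    | zero => intro q; rfl
    | succ k ih => intro q; rw [Nat.mul_succ, ← add_assoc, hU, ih]
  unfold cyc
  rw [ZMod.val_natCast]
  conv_rhs => rw [← Nat.mod_add_div q N, h]

/-- For every `d ≥ 2` there is a non-trivial upcycle for `{0, 1, 2, 3}^(4 d)` with diamondicity
`d`. -/
theorem result : ∀ d : ℕ, 2 ≤ d → ∃ (N : ℕ) (u : CyclicPartialWord 4 N),
    IsUpcycle (4 * d) u ∧ NonTrivial u ∧ HasDiamondicity (4 * d) u d := by
  intro d hd
  obtain ⟨N, U, hN, h4, hU, hnone, hcov⟩ := Pool.Agent.H156.Upcycle.main d hd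
  have : NeZero N := ⟨by omega⟩
  have hadd : ∀ (i : ZMod N) (j : ℕ), cyc N U (i + (j : ℕ)) = U (i.val + j) := by
    intro i j
    rw [← cyc_cast hU]
    congr 1
    push_cast
    rw [ZMod.natCast_zmod_val]
  refine ⟨N, cyc N U, ⟨hN, fun w => ?_⟩, ⟨⟨0, ?_⟩, ⟨1, ?_⟩⟩, fun i => ?_⟩
  · obtain ⟨i, ⟨hi, h1⟩, h2⟩ := hcov (fun x => if h : x < 4 * d then w ⟨x, h⟩ else 0)
    refine ⟨(i : ZMod N), ?_, ?_⟩
    · intro j
      rw [hadd, ZMod.val_natCast, Nat.mod_eq_of_lt hi]
      have := h1 j j.isLt
      rwa [dif_pos j.isLt] at this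
    · intro i' hi'
      have h3 := h2 i'.val ⟨ZMod.val_lt i', fun x hx => by
        have := hi' ⟨x, hx⟩
        rw [hadd] at this
        rwa [dif_pos hx]⟩
      rw [← h3, ZMod.natCast_zmod_val]
  · have := cyc_cast hU 0
    rw [Nat.cast_zero] at this
    rw [this, hnone]
  · have := cyc_cast hU 1
    rw [Nat.cast_one] at this
    rw [this, Ne, hnone]
    norm_num
  · have : (Finset.univ.filter (fun j : Fin (4 * d) => cyc N U (i + (j : ℕ)) = none)) =
        (Finset.univ.filter (fun j : Fin (4 * d) => (i.val + (j : ℕ)) % 4 = 0)) := by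
      refine Finset.filter_congr fun j _ => ?_
      rw [hadd, hnone]
    rw [this, card_aux]

end Pool.Agent.Results.MP_f32aed_co.Diamondicity
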